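import Pool.Agent.U758.CF.Contra2

/-!
# The conjectures of Galkin and Shinder and of Hassett and Kuznetsov contradict each other in rank three

Galkin and Shinder predict that a smooth cubic fourfold `X` is rational if and only if the variety of
lines `F(X)` is birational to the Hilbert square `S^[2]` of a K3 surface `S`; Hassett and Kuznetsov
predict that it is rational if and only if it has an associated K3 surface. Let `A(X)` be the group of
the Hodge classes in `H^4(X, ℤ)`. If `A(X)` has rank two, then the two conditions are not equivalent
(Addington, for the very general `X` in `C_74`). They are equivalent if the rank is at least five (see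
`EquivalenceInRankFive`). Here it is proved that they are not equivalent in rank three, for infinitely
many lattices `A(X)`.

1. Let `a` and `b` be coprime, `a` even, and `b` odd and divisible by three. If `A(X)` has a basis
   `h, e_1, e_2` of orthogonal classes with the squares `3`, `2 a^2`, `2 b^2`, then `X` has an associated K3
   surface, but `F(X)` is not birational to a Hilbert square `S^[2]`.
2. The same holds if `A(X)` has a basis `h, e_1, e_2` with the matrix of products
   `(3, 0, 1; 0, 26, 13; 1, 13, 35)`.
3. So for all these `X` the two conjectures contradict each other: if `X` is rational if and only if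
   `F(X)` is birational to some `S^[2]`, then it is false that `X` is rational if and only if it has an
   associated K3 surface.

In 1. all products `h.v` with Hodge classes `v` are divisible by three, in 2. they are not. Smooth
cubic fourfolds with these lattices exist (for `a` not zero) by the theorems of Voisin, Laza and
Looijenga on the period map; they form loci of codimension two.

Known facts which are used: the properties of `H^4(X, ℤ)` collected in `H4.IsCohomology`. The
theorem of Addington which translates `F(X) ~ S^[2]` is used in the definition `HilbertSquare`.

Idea of the proof. The associated K3 surface comes from the local-global principle for associated K3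
surfaces in the files `Pool/Agent/N801/CF/` of the starting repository. A Hilbert square in 1. means
that `3 (a^2 x^2 + b^2 y^2) = n^2 + n + 1`, so that `(2 a x)^2 - 3 k^2 = -(2 b y - 1)(2 b y + 1)` with
`2 n + 1 = 3 k`. The primes `5` and `7` modulo `12` are inert in `ℚ(√3)`, so that they divide the coprime
numbers `2 b y - 1` and `2 b y + 1` to even powers; then `2 b y + 1` is `1` modulo `12`, `y` is even, and
`3 k^2 = -1` modulo `16`, a contradiction. The argument for 2. is similar, with `ℚ(√13)`. These are
obstructions of the type of the spinor exceptions of indefinite ternary forms; there is no local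
obstruction.
-/

set_option autoImplicit false

namespace Pool.Agent.Results.MP_4d0966_ag.ContradictionInRankThree

open Pool.Agent.Y95.Q Pool.Agent.U758.CF

/-- The group of the Hodge classes of `X` has a basis `h, e_1, e_2` of one of the two kinds: the matrix of
products is diagonal with the entries `3`, `2 a ^ 2`, `2 b ^ 2`, where `a` and `b` are coprime, `a` is
even, and `b` is odd and divisible by three; or it is `(3, 0, 1; 0, 26, 13; 1, 13, 35)`. -/
def SpecialLattice {X : CubicFourfold} (H : H4 X) : Prop :=
  (∃ a b : ℤ, 2 ∣ a ∧ ¬ 2 ∣ b ∧ 3 ∣ b ∧ IsCoprime a b ∧
    HodgeLattice H !![3, 0, 0; 0, 2 * a ^ 2, 0; 0, 0, 2 * b ^ 2]) ∨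
  HodgeLattice H !![3, 0, 1; 0, 26, 13; 1, 13, 35]

/-- **The two conjectures contradict each other in rank three.** -/
theorem result {X : CubicFourfold} {H : H4 X} (hH : H.IsCohomology) (hL : SpecialLattice H) :
    AssociatedK3 H ∧ ¬ HilbertSquare H ∧
      ((X.IsRational ↔ HilbertSquare H) → ¬ (X.IsRational ↔ AssociatedK3 H)) := by
  have h : AssociatedK3 H ∧ ¬ HilbertSquare H := by
    rw [associatedK3_iff]
    rcases hL with ⟨a, b, ha, hb2, hb3, hab, hL⟩ | hL
    · exact family hH ha hb2 hb3 hab hL
    · exact example_two hH hL
  exact ⟨h.1, h.2, fun h1 h2 => h.2 (h1.1 (h2.2 h.1))⟩

end Pool.Agent.Results.MP_4d0966_ag.ContradictionInRankThree
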