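import Pool.Agent.U758.CF.Small

/-!
# The conjecture of Galkin and Shinder for the cubic fourfolds in `C_8` and `C_18`

The smooth cubic fourfolds which are known to be rational are those in the Hassett divisors `C_14`,
`C_26`, `C_38`, `C_42`, some of those which contain a plane (the divisor `C_8`; Hassett: there is a
surface `T` such that `T.(h - P)` is odd) and some of those which contain an elliptic ruled surface
`T` of degree six (the divisor `C_18`; Addington, Hassett, Tschinkel and Várilly-Alvarado: there is a
surface `v` whose product with the class `4 h - T` of the sextic del Pezzo surfaces is not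
divisible by three). Galkin and Shinder predict that a cubic fourfold `X` is rational if and only if
the variety of lines `F(X)` is birational to the Hilbert square `S^[2]` of a K3 surface `S`; Hassett
and Kuznetsov predict that it is rational if and only if it has an associated K3 surface. In
general the condition of Galkin and Shinder is stronger (Addington). The following is proved.

1. For a smooth cubic fourfold `X` with a plane the two conditions are equivalent: `F(X)` is birational
   to `S^[2]` for a K3 surface `S` if and only if `X` has an associated K3 surface, if and only if there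
   is a Hodge class `v` such that `disc v` is not divisible by `4`.
2. For a smooth cubic fourfold `X` in `C_18` the two conditions are equivalent, and equivalent to the
   existence of a Hodge class `v` such that `disc v` is not divisible by `3` or is `6` modulo `18`.
   So the conjectures of Galkin and Shinder and of Hassett and Kuznetsov are the same statement for
   all cubic fourfolds in `C_8` and `C_18`.
3. Every smooth cubic fourfold which satisfies one of the rationality criteria above has the
   property that `F(X)` is birational to `S^[2]` for a K3 surface `S`, as predicted by Galkin and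
   Shinder.
4. If `X` contains a plane and there is a Hodge class `v` such that `disc v ≤ 42` is not divisible by `4`,
   then `X` is rational and `F(X)` is birational to `S^[2]` for a K3 surface `S`.

Known facts which are used (the hypotheses of the theorem): the properties of `H^4(X, ℤ)` collected
in `H4.IsCohomology`, and, in 4. only, the rationality of the cubic fourfolds in `C_14` (Bolognesi,
Russo, Staglianò), `C_26`, `C_38` and `C_42` (Russo, Staglianò). The theorem of Addington which
translates `F(X) ~ S^[2]` is used in the definition `HilbertSquare`.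

Idea of the proof. Let `f(v)` be half of `disc v`. If `f(w) = s^2`, then
`4 f(v + t w) - (m + 2 s t)^2 = 4 f(v) - m^2 + 4 t (b(v, w) - s m)` is linear in `t`, so that the equation
`f(x) = n^2 + n + 1` has to be solved only modulo `b(v, w) - s m`, for one suitable pair `(v, m)`. For
`s = 2` and `s = 3` this can be done by hand.
-/

set_option autoImplicit false

namespace Pool.Agent.Results.MP_4d0966_ag.EquivalenceInC8AndC18

open Pool.Agent.Y95.Q Pool.Agent.N801.CF Pool.Agent.U758.CF

/-- One of the known criteria for the rationality of a cubic fourfold `X` is satisfied: `X` is in `C_14`,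
`C_26`, `C_38` or `C_42` (Beauville, Donagi, Bolognesi, Russo, Staglianò); or `X` contains a plane `P` and
there is a Hodge class `T` such that `T.(h - P)` is odd (Hassett); or there are a Hodge class `T` with
`T.T = 18`, `T.h = 6` (the class of an elliptic ruled surface of degree six; `4 h - T` is the class
of the sextic del Pezzo surfaces which fibre `X`) and a Hodge class `v` such that `v.(4 h - T)` is not
divisible by `3` (Addington, Hassett, Tschinkel, Várilly-Alvarado). -/
def KnownCriterion {X : CubicFourfold} (H : H4 X) : Prop :=
  (∃ d : ℤ, (d = 14 ∨ d = 26 ∨ d = 38 ∨ d = 42) ∧ InDivisor H d) ∨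
  (∃ (P : X.Plane) (T : Fin 23 → ℤ), H.IsHodge T ∧ Odd (H.ip T (H.h - H.cl P))) ∨
  ∃ T v : Fin 23 → ℤ, H.IsHodge T ∧ H.ip T T = 18 ∧ H.ip T H.h = 6 ∧ H.IsHodge v ∧
    ¬ 3 ∣ H.ip v ((4 : ℤ) • H.h - T)

/-- **The conjecture of Galkin and Shinder in `C_8` and `C_18`.** -/
theorem result {X : CubicFourfold} {H : H4 X} (hH : H.IsCohomology) :
    (Nonempty X.Plane → (HilbertSquare H ↔ AssociatedK3 H) ∧
      (HilbertSquare H ↔ ∃ v, H.IsHodge v ∧ ¬ 4 ∣ H.disc v)) ∧
    (InDivisor H 18 → (HilbertSquare H ↔ AssociatedK3 H) ∧
      (HilbertSquare H ↔ ∃ v, H.IsHodge v ∧ (¬ 3 ∣ H.disc v ∨ H.disc v % 18 = 6))) ∧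
    (KnownCriterion H → HilbertSquare H) ∧
    (Nonempty X.Plane → KnownRational H → ∀ v, H.IsHodge v → ¬ 4 ∣ H.disc v → H.disc v ≤ 42 →
      X.IsRational ∧ HilbertSquare H) := by
  have h8 : ∀ P : X.Plane, H.IsHodge (H.cl P) ∧ H.disc (H.cl P) = 8 := by
    intro P
    obtain ⟨p1, p2, p3⟩ := (hH.cl_range (H.cl P)).1 ⟨P, rfl⟩
    refine ⟨p1, ?_⟩
    rw [H4.disc, hH.comm H.h, p2, p3]
    norm_num
  refine ⟨?_, ?_, ?_, ?_⟩
  · rintro ⟨P⟩
    rw [associatedK3_iff]
    exact hasK3_iff_eight hH (h8 P).1 (h8 P).2
  · rintro ⟨T, hT, -, h18⟩
    rw [associatedK3_iff]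
    exact hasK3_iff_eighteen hH hT h18
  · rintro (⟨d, hd, hdd⟩ | ⟨P, T, hT, ho⟩ | ⟨T, v, hT, hTT, hTh, hv, h3⟩)
    · rcases hd with rfl | rfl | rfl | rfl
      · exact hilbert_divisor 1 2 (by norm_num) hdd
      · exact hilbert_divisor 1 3 (by norm_num) hdd
      · exact hilbert_divisor 7 30 (by norm_num) hdd
      · exact hilbert_divisor 1 4 (by norm_num) hdd
    · exact hilbert_of_odd hH P hT ho
    · exact hilbert_of_sextic hH hT hTT hTh hv h3
  · rintro ⟨P⟩ hR v hv h4 hle
    exact ⟨rational_of_small hH hR ⟨P⟩ hv h4 hle, hilbert_eight hH (h8 P).1 (h8 P).2 hv h4⟩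

end Pool.Agent.Results.MP_4d0966_ag.EquivalenceInC8AndC18
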