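import Pool.Agent.U758.CF.Rank

/-!
# The conjecture of Galkin and Shinder for cubic fourfolds with many Hodge classes

Galkin and Shinder predict that a smooth cubic fourfold `X` is rational if and only if the variety of
lines `F(X)` is birational to the Hilbert square `S^[2]` of a K3 surface `S`; Hassett and Kuznetsov
predict that it is rational if and only if it has an associated K3 surface. The first condition is
stronger in general (Addington, for the very general `X` in `C_74`). Let `A(X)` be the group of the
Hodge classes in `H^4(X, ℤ)`. The following is proved.

1. If `A(X)` has rank at least five, then the two conditions are equivalent, so that the conjectures of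
   Galkin and Shinder and of Hassett and Kuznetsov are the same statement for `X`. Moreover they are
   equivalent to local conditions: `F(X)` is birational to `S^[2]` for a K3 surface `S` if and only if
   for every prime `p` there is a Hodge class `v` such that `disc v` satisfies the condition (**) of
   Hassett at `p`. The classes `v` may depend on `p`.
2. The same holds if `A(X)` has rank at least four and `X` is in a Hassett divisor `C_d` such that `d / 2`
   is a perfect square (that is, if `F(X)` has a rational Lagrangian fibration). If the rank is at
   least five, then there is always such a `d`.

The theorem applies, for instance, to all cubic fourfolds with a nontrivial symplectic automorphism,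
or with an Eckardt point, as their Hodge classes have rank at least seven. In rank two and three
the two conditions are not equivalent.

Known facts which are used: the properties of `H^4(X, ℤ)` collected in `H4.IsCohomology`. The
theorem of Addington which translates `F(X) ~ S^[2]` is used in the definition `HilbertSquare`.

Idea of the proof. Let `f(v)` be half of `disc v`, a positive definite integral quadratic form on
`A(X) / ℤ h` with the polar form `b`. One has to solve `f(x) = n^2 + n + 1`. By the theorem of Meyer there
is a class `w` such that `f(w) = s^2` is a nonzero square (rank at least five). As
`4 f(v + t w) - (m + 2 s t)^2 = 4 f(v) - m^2 + 4 t (b(v, w) - s m)` is linear in `t`, it is enough to find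
`(v, m)` with `4 f(v) - m^2 = 3` modulo `4 (b(v, w) - s m)`. By Dirichlet's theorem one can choose `(v, m)`
close to local solutions at the primes which divide `6 s` and some discriminants, and such that
`b(v, w) - s m` is a product of such primes and of one new prime `ℓ`; the congruence modulo `ℓ` can be
achieved by adding to `v` a class in the orthogonal complement of `w`, as the form `f` has rank at
least two there.
-/

set_option autoImplicit false

namespace Pool.Agent.Results.MP_4d0966_ag.EquivalenceInRankFive

open Pool.Agent.Y95.Q Pool.Agent.N801.CF Pool.Agent.U758.CF

/-- The conditions of Galkin and Shinder (`F(X)` is birational to a Hilbert square `S^[2]`) and of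
Hassett and Kuznetsov (`X` has an associated K3 surface) are equivalent to each other and to the
local conditions. -/
def Equivalent {X : CubicFourfold} (H : H4 X) : Prop :=
  (HilbertSquare H ↔ AssociatedK3 H) ∧
  (HilbertSquare H ↔ ∀ p : ℕ, p.Prime → ∃ v, H.IsHodge v ∧ AdmissibleAt p (H.disc v))

/-- **The conjecture of Galkin and Shinder for cubic fourfolds with many Hodge classes.** -/
theorem result {X : CubicFourfold} {H : H4 X} (hH : H.IsCohomology) :
    (5 ≤ H.rank → Equivalent H) ∧
    (4 ≤ H.rank → LagrangianFibration H → Equivalent H) ∧
    (5 ≤ H.rank → LagrangianFibration H) := by
  refine ⟨fun hr => equivalences hH (hilbert_of_rank hH hr), ?_, ?_⟩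
  · rintro hr ⟨s, hs, w, hw, -, hd⟩
    exact equivalences hH (hilbert_of_square hH hr hw hs hd)
  · intro hr
    obtain ⟨w, s, hw, hs, hd⟩ := exists_square hH hr
    exact lagrangian_of_square hH hw hs hd

end Pool.Agent.Results.MP_4d0966_ag.EquivalenceInRankFive
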