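import Pool.Agent.U131.HS.Main

/-!
# The degrees of the K3 surfaces `S` such that `F(X)` is birational to `S^[2]`

Let `X` be a smooth cubic fourfold, `F(X)` its variety of lines, `A(X)` the group of the Hodge classes
in `H^4(X, ℤ)`. By a theorem of Addington `F(X)` is birational to the Hilbert square `S^[2]` of a K3
surface `S` if and only if `X` lies in a Hassett divisor `C_d` with `a ^ 2 d = 2 n ^ 2 + 2 n + 2` for
integers `a` and `n`.

**How many degrees?** The set of these `d` is empty, or it has exactly one element and `A(X)` has rank
two, or it is infinite and `A(X)` has rank at least three. So a smooth cubic fourfold which satisfies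
the right side of the conjecture of Galkin and Shinder satisfies it by only one Hassett divisor
exactly if it is a very general member of this divisor, and otherwise by infinitely many.

The corresponding statement for the admissible `d` (the right side of the conjecture of Hassett and
Kuznetsov) is `MP_ffd2c1_ag.InfinitelyManyDegrees`. The two sets are different: for the lattices of rank
three of `MP_4d0966_ag.ContradictionInRankThree` there are infinitely many admissible degrees, but the
set considered here is empty.

Idea of the proof. Let `f(v)` be half of the discriminant of `⟨h, v⟩`, a positive definite form on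
`A(X) / ℤ h`. The condition is `4 f(v) = m ^ 2 + 3`. If the rank is at least three, there is a class `u`
orthogonal to `h` and to a given solution `v`. If `4 f(u)` is not a square, then the units of the
Pell equation `x ^ 2 - 4 f(u) y ^ 2 = 1` give the solutions `(v + m y u, m x)`; if `4 f(u) = k ^ 2`, then
`(u, k)` is isotropic, and the transvections along it give the solutions
`((1 + 2 t) v + 8 τ f(v) (t + 1) u, …)`, `t = m k τ`. The degree `d` belongs to the primitive part of the
solution. If `a` divides the solution, then it divides its product with `v`, which is `2 f(v)` in the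
first case and grows only like the square root of the coefficient of `u` in the second; so the
degrees tend to infinity.

Known facts which are used: the properties of `H^4(X, ℤ)` collected in `H4.IsCohomology` (see
`Pool/Agent/Y95/Q/Defs.lean`).
-/

set_option autoImplicit false

namespace Pool.Agent.Results.MP_4d0966_ag.NumberOfDegrees

open Pool.Agent.Y95.Q Pool.Agent.U758.CF Pool.Agent.U141.CF Pool.Agent.U131.HS

/-- The `d` with `a ^ 2 d = 2 n ^ 2 + 2 n + 2` for some integers `a`, `n` such that the cubic fourfold
lies in the Hassett divisor `C_d`. -/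
def degrees {X : CubicFourfold} (H : H4 X) : Set ℤ :=
  {d | (∃ a n : ℤ, a ^ 2 * d = 2 * n ^ 2 + 2 * n + 2) ∧ InDivisor H d}

/-- **No, one or infinitely many degrees.** -/
theorem result {X : CubicFourfold} {H : H4 X} (hH : H.IsCohomology) :
    (HilbertSquare H ↔ (degrees H).Nonempty) ∧
    (HilbertSquare H →
      (H.rank = 2 ∧ ∃ d, degrees H = {d}) ∨ (3 ≤ H.rank ∧ (degrees H).Infinite)) := by
  have hne : HilbertSquare H ↔ (degrees H).Nonempty := Iff.rfl
  refine ⟨hne, fun hS => ?_⟩
  have h2 := (local_of_hilbert hH hS).1
  rcases Nat.lt_or_ge 2 H.rank with h3 | h3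
  · right
    refine ⟨h3, fun hfin => ?_⟩
    obtain ⟨D, hD⟩ := hfin.bddAbove
    obtain ⟨w, a, n, g1, g2, g3, g4⟩ := unbounded_hilbert hH hS h3 D
    have := hD (show H.disc w ∈ degrees H from ⟨⟨a, n, g3⟩, w, g1, g2, rfl⟩)
    omega
  · left
    have h4 : H.rank = 2 := le_antisymm h3 h2
    refine ⟨h4, ?_⟩
    obtain ⟨d, hd⟩ := hS
    have pos : ∀ e : ℤ, (∃ a n : ℤ, a ^ 2 * e = 2 * n ^ 2 + 2 * n + 2) → 0 < e := by
      rintro e ⟨a, n, h⟩
      by_contra hc
      nlinarith [sq_nonneg a, sq_nonneg (2 * n + 1), mul_nonneg (sq_nonneg a) (neg_nonneg.2
        (not_lt.1 hc))]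
    refine ⟨d, Set.eq_singleton_iff_unique_mem.2 ⟨hd, ?_⟩⟩
    rintro e ⟨he, w, g1, g2, rfl⟩
    obtain ⟨hd', v, k1, k2, rfl⟩ := hd
    exact unique_degree hH h4 g1 k1 g2 k2 (pos _ he) (pos _ hd')

end Pool.Agent.Results.MP_4d0966_ag.NumberOfDegrees
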